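import Mathlib

set_option autoImplicit false

namespace Pool.Agent.Results.MP_be01c1_co.Gilbert

open Finset Complex

def gilbert (q n d : ℕ) : SimpleGraph (Fin n → ZMod q) where
  Adj u v := 1 ≤ hammingDist u v ∧ hammingDist u v ≤ d - 1
  symm := ⟨fun u v h => by rwa [hammingDist_comm]⟩
  loopless := ⟨fun u h => by simp at h⟩

noncomputable def lam (q n d : ℕ) [NeZero q] (v : Fin n → ZMod q) : ℂ :=
  ∑ u : Fin n → ZMod q with 1 ≤ hammingNorm u ∧ hammingNorm u ≤ d - 1,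
    exp (2 * Real.pi * I / q) ^ (u ⬝ᵥ v).val

def SS : Finset (Fin 5 → ZMod 3) := univ.filter fun u => 1 ≤ hammingNorm u ∧ hammingNorm u ≤ 3 - 1

def cnt (x : Fin 5 → ZMod 3) (k : ZMod 3) : ℕ := (SS.filter fun u => u ⬝ᵥ x = k).card

lemma lam_eq (x : Fin 5 → ZMod 3) : lam 3 5 3 x = cnt x 0 + cnt x 1 * exp (2 * Real.pi * I / 3) +
    cnt x 2 * exp (2 * Real.pi * I / 3) ^ 2 := by
  have := sum_fiberwise' SS (fun u => u ⬝ᵥ x) fun k : ZMod 3 => exp (2 * Real.pi * I / 3) ^ k.val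
  rw [lam, Nat.cast_ofNat, ← SS, ← this, show (univ : Finset (ZMod 3)) = {0, 1, 2} by decide,
    sum_insert (by decide), sum_pair (by decide)]
  simp [cnt, show (1 : ZMod 3).val = 1 from rfl, show (2 : ZMod 3).val = 2 from rfl, add_assoc]

lemma re1 : (exp (2 * Real.pi * I / 3)).re = -1 / 2 := by
  rw [show 2 * Real.pi * I / 3 = ((Real.pi - Real.pi / 3 : ℝ) : ℂ) * I by push_cast; ring,
    exp_ofReal_mul_I_re, Real.cos_pi_sub, Real.cos_pi_div_three]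
  norm_num

lemma re2 : (exp (2 * Real.pi * I / 3) ^ 2).re = -1 / 2 := by
  rw [← exp_nat_mul, show (2 : ℕ) * (2 * Real.pi * I / 3) =
    ((Real.pi / 3 + Real.pi : ℝ) : ℂ) * I by push_cast; ring,
    exp_ofReal_mul_I_re, Real.cos_add_pi, Real.cos_pi_div_three]
  norm_num

lemma c1 : ∀ x, 14 ≤ cnt x 0 ∧ cnt x 1 + cnt x 2 ≤ 36 := by decide +kernel

lemma c2 : ∀ k, cnt ![0, 0, 1, 1, 1] k = (if k = 0 then 14 else 18) ∧
    cnt ![0, 1, 1, 1, 1] k = if k = 0 then 14 else 18 := by decide +kernel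

def N (a : Fin 5 → ZMod 3) : Prop := 1 ≤ hammingNorm a ∧ hammingNorm a ≤ 3 - 1

instance : DecidablePred N := fun a => by unfold N; infer_instance

lemma c3 : ∀ a, a ⬝ᵥ ![0, 1, 1, 1, 1] = 0 → N a → ∀ b, b ⬝ᵥ ![0, 1, 1, 1, 1] = 0 → N b →
    N (a - b) → ∀ c, c ⬝ᵥ ![0, 1, 1, 1, 1] = 0 → N c → N (a - c) → N (b - c) →
    ∀ d, d ⬝ᵥ ![0, 1, 1, 1, 1] = 0 → N d → N (a - d) → N (b - d) → ¬ N (c - d) := by
  decide +kernel

theorem result : ∃ (q n d : ℕ) (_ : Fact q.Prime) (v v' : Fin n → ZMod q), 1 ≤ n ∧ 2 ≤ d ∧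
    (∃ u u', (gilbert q n d).Adj u u') ∧ lam q n d v = lam q n d v' ∧
    (∀ x, (lam q n d v).re ≤ (lam q n d x).re) ∧
    IsEmpty ((gilbert q n d).induce {u | u ⬝ᵥ v = 0} ≃g (gilbert q n d).induce {u | u ⬝ᵥ v' = 0}) := by
  refine ⟨3, 5, 3, ⟨Nat.prime_three⟩, ![0, 0, 1, 1, 1], ![0, 1, 1, 1, 1], by norm_num, by norm_num,
    ⟨0, ![1, 0, 0, 0, 0], by unfold gilbert; decide⟩, ?_, fun x => ?_, ⟨fun φ => ?_⟩⟩
  · simp only [lam_eq, (c2 _).1, (c2 _).2]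
  · have h1 : (14 : ℝ) ≤ cnt x 0 := by exact_mod_cast (c1 x).1
    have h2 : (cnt x 1 : ℝ) + cnt x 2 ≤ 36 := by exact_mod_cast (c1 x).2
    simp only [lam_eq, (c2 _).1, add_re, natCast_re, mul_re, natCast_im, re1, re2,
      show (1 : ZMod 3) ≠ 0 by decide, show (2 : ZMod 3) ≠ 0 by decide, if_true, if_false]
    push_cast
    linarith
  · let p : Fin 5 → Fin 5 → ZMod 3 := ![0, ![1, 0, 0, 0, 0], ![2, 0, 0, 0, 0], ![0, 1, 0, 0, 0],
      ![0, 2, 0, 0, 0]]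
    have hp : ∀ i, p i ⬝ᵥ ![0, 0, 1, 1, 1] = 0 := by decide
    have ha : ∀ i j, i ≠ j → 1 ≤ hammingDist (p i) (p j) ∧ hammingDist (p i) (p j) ≤ 3 - 1 := by
      decide
    let y : Fin 5 → Fin 5 → ZMod 3 := fun i => (φ ⟨p i, hp i⟩).1
    have h1 : ∀ i, (y i - y 0) ⬝ᵥ ![0, 1, 1, 1, 1] = 0 := fun i => by
      rw [sub_dotProduct, (φ ⟨p i, hp i⟩).2, (φ ⟨p 0, hp 0⟩).2, sub_self]
    have h2 : ∀ i j, i ≠ j → N (y i - y j) := fun i j h => by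
      have := (φ.map_adj_iff (v := ⟨p i, hp i⟩) (w := ⟨p j, hp j⟩)).mpr (ha i j h)
      unfold N
      rw [sub_eq_neg_add, ← hammingDist_eq_hammingNorm, hammingDist_comm]
      exact this
    have h3 : ∀ i j, i ≠ j → N (y i - y 0 - (y j - y 0)) := fun i j h => by
      rw [sub_sub_sub_cancel_right]; exact h2 i j h
    exact c3 _ (h1 1) (h2 1 0 (by decide)) _ (h1 2) (h2 2 0 (by decide)) (h3 1 2 (by decide))
      _ (h1 3) (h2 3 0 (by decide)) (h3 1 3 (by decide)) (h3 2 3 (by decide))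
      _ (h1 4) (h2 4 0 (by decide)) (h3 1 4 (by decide)) (h3 2 4 (by decide)) (h3 3 4 (by decide))

end Pool.Agent.Results.MP_be01c1_co.Gilbert
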